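import Pool.Agent.CLN.Tent

/-!
# MP_246b47_co: convex figures in the plane
-/

set_option autoImplicit false

namespace Pool.Agent.CLN

open MeasureTheory

/-- the plane -/
abbrev Pl := EuclideanSpace ℝ (Fin 2)

/-- separated sets have disjoint interiors -/
theorem disj_int (f : Pl →L[ℝ] ℝ) {v : Pl} (hv : 0 < f v) {c : ℝ} {A B : Set Pl} (hA : ∀ p ∈ A, f p ≤ c)
    (hB : ∀ p ∈ B, c ≤ f p) : Disjoint (interior A) (interior B) := by
  rw [Set.disjoint_left]
  intro p hpA hpB
  have hcont : Continuous fun e : ℝ => p + e • v := by fun_prop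
  have hmem : {e : ℝ | p + e • v ∈ interior A} ∈ nhds (0 : ℝ) := by
    apply hcont.continuousAt.preimage_mem_nhds
    simp only [zero_smul, add_zero]
    exact isOpen_interior.mem_nhds hpA
  obtain ⟨d, hd, hd'⟩ := Metric.mem_nhds_iff.mp hmem
  have h1 : d / 2 ∈ Metric.ball (0 : ℝ) d := by
    rw [Metric.mem_ball, dist_zero_right, Real.norm_eq_abs, abs_of_pos (by linarith)]
    linarith
  have h2 := hA _ (interior_subset (hd' h1))
  have h3 := hB _ (interior_subset hpB)
  rw [map_add, map_smul, smul_eq_mul] at h2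
  nlinarith

/-- the slanted frame of a convex figure -/
theorem frame {F : Set Pl} (hc : IsCompact F) (hF : Convex ℝ F) (hi : (interior F).Nonempty) :
    ∃ (f k : Pl →L[ℝ] ℝ) (f0 k0 : ℝ) (v w L R T B : Pl), 0 < f v ∧ 0 < k w ∧
      L ∈ F ∧ R ∈ F ∧ T ∈ F ∧ B ∈ F ∧ (∀ p ∈ F, f0 ≤ f p ∧ f p ≤ f0 + 1) ∧ (∀ p ∈ F, k0 ≤ k p ∧ k p ≤ k0 + 1) ∧
      f L = f0 ∧ f R = f0 + 1 ∧ k L = k R ∧ k T = k0 + 1 ∧ k B = k0 := by
  obtain ⟨p0, hp0⟩ := hi
  have hne : F.Nonempty := ⟨p0, interior_subset hp0⟩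
  set e0 : Pl := EuclideanSpace.single 0 1 with he0
  set e1 : Pl := EuclideanSpace.single 1 1 with he1
  have move : ∀ {p : Pl} (v : Pl), p ∈ interior F → ∃ e : ℝ, 0 < e ∧ p + e • v ∈ F := by
    intro p v hp
    have hcont : Continuous fun e : ℝ => p + e • v := by fun_prop
    have hmem : {e : ℝ | p + e • v ∈ interior F} ∈ nhds (0 : ℝ) := by
      apply hcont.continuousAt.preimage_mem_nhds
      simp only [zero_smul, add_zero]
      exact isOpen_interior.mem_nhds hp
    obtain ⟨d, hd, hd'⟩ := Metric.mem_nhds_iff.mp hmem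
    refine ⟨d / 2, by linarith, interior_subset (hd' ?_)⟩
    rw [Metric.mem_ball, dist_zero_right, Real.norm_eq_abs, abs_of_pos (by linarith)]
    linarith
  -- heights
  have hcontk : Continuous fun p : Pl => p 1 := by fun_prop
  have hcont0 : Continuous fun p : Pl => p 0 := by fun_prop
  obtain ⟨B, hB, hBmin⟩ := hc.exists_isMinOn hne hcontk.continuousOn
  obtain ⟨T, hT, hTmax⟩ := hc.exists_isMaxOn hne hcontk.continuousOn
  have hBm : ∀ p ∈ F, B 1 ≤ p 1 := fun p hp => hBmin hp
  have hTm : ∀ p ∈ F, p 1 ≤ T 1 := fun p hp => hTmax hp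
  have hBT : B 1 < T 1 := by
    obtain ⟨e, he, hm⟩ := move e1 hp0
    have h1 := hTm _ hm
    have h2 := hBm _ (interior_subset hp0)
    have h3 : (p0 + e • e1) 1 = p0 1 + e := by simp [he1]
    linarith
  -- the longest chord
  have hDc : IsCompact ((F ×ˢ F) ∩ {q : Pl × Pl | q.1 1 = q.2 1}) := by
    apply (hc.prod hc).inter_right
    exact isClosed_eq (by fun_prop) (by fun_prop)
  have hDn : ((F ×ˢ F) ∩ {q : Pl × Pl | q.1 1 = q.2 1}).Nonempty :=
    ⟨(p0, p0), ⟨interior_subset hp0, interior_subset hp0⟩, rfl⟩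
  obtain ⟨⟨L, R⟩, ⟨⟨hL, hR⟩, hLR⟩, hmax⟩ := hDc.exists_isMaxOn hDn
    (f := fun q : Pl × Pl => q.2 0 - q.1 0) (by fun_prop)
  simp only [Set.mem_ofPred_eq] at hLR
  have hmx : ∀ p ∈ F, ∀ q ∈ F, p 1 = q 1 → q 0 - p 0 ≤ R 0 - L 0 := fun p hp q hq hpq =>
    hmax (show (p, q) ∈ _ from ⟨⟨hp, hq⟩, hpq⟩)
  set ell := R 0 - L 0 with hell
  have hell0 : 0 < ell := by
    obtain ⟨e, he, hm⟩ := move e0 hp0
    have h1 := hmx p0 (interior_subset hp0) _ hm (by simp [he0])
    have h3 : (p0 + e • e0) 0 = p0 0 + e := by simp [he0]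
    linarith
  have hRL : R = L + ell • e0 := by
    ext i
    fin_cases i
    · simp [he0, hell]
    · simp [he0, hLR]
  -- separation
  have hdis : Disjoint (interior F) ((fun q => q + ell • e0) '' F) := by
    rw [Set.disjoint_left]
    rintro p hp ⟨q, hq, rfl⟩
    obtain ⟨e, he, hm⟩ := move e0 hp
    have h1 := hmx q hq _ hm (by simp [he0])
    have h3 : (q + ell • e0 + e • e0) 0 = q 0 + ell + e := by simp [he0]
    linarith
  have hconv : Convex ℝ ((fun q => q + ell • e0) '' F) := by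
    have h1 := hF.translate (ell • e0)
    have e : (fun q : Pl => q + ell • e0) = fun x => ell • e0 + x := by
      funext x
      exact add_comm _ _
    rw [e]
    exact h1
  obtain ⟨f, u, hf1, hf2⟩ := geometric_hahn_banach_open hF.interior isOpen_interior hconv hdis
  have hfu : ∀ p ∈ F, f p ≤ u := by
    intro p hp
    have hcl : p ∈ closure (interior F) := by
      rw [hF.closure_interior_eq_closure_of_nonempty_interior ⟨p0, hp0⟩]
      exact subset_closure hp
    exact (isClosed_le f.continuous continuous_const).closure_subset_iff.mpr (fun q hq => (hf1 q hq).le) hcl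
  have hfl : ∀ p ∈ F, u - ell * f e0 ≤ f p := by
    intro p hp
    have := hf2 _ ⟨p, hp, rfl⟩
    rw [map_add, map_smul, smul_eq_mul] at this
    linarith
  have hRu : f R = u := by
    apply le_antisymm (hfu R hR)
    have h1 := hf2 (L + ell • e0) ⟨L, hL, rfl⟩
    rwa [← hRL] at h1
  have hLu : f L = u - ell * f e0 := by
    have : f R = f L + ell * f e0 := by
      rw [hRL, map_add, map_smul, smul_eq_mul]
    linarith
  have hfe0 : 0 < ell * f e0 := by
    have h1 := hf1 p0 hp0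
    have h2 := hfl p0 (interior_subset hp0)
    linarith
  have hfe : 0 < f e0 := by
    rcases lt_or_ge 0 (f e0) with h | h
    · exact h
    · nlinarith
  have hH : 0 < T 1 - B 1 := by linarith
  let k' : Pl →L[ℝ] ℝ := EuclideanSpace.proj 1
  have hk' : ∀ p, k' p = p 1 := fun p => rfl
  refine ⟨(ell * f e0)⁻¹ • f, (T 1 - B 1)⁻¹ • k', (ell * f e0)⁻¹ * f L, (T 1 - B 1)⁻¹ * B 1, e0, e1, L, R, T, B,
    ?_, ?_, hL, hR, hT, hB, ?_, ?_, rfl, ?_, ?_, ?_, rfl⟩
  · simp only [smul_apply, smul_eq_mul]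
    positivity
  · simp only [smul_apply, smul_eq_mul, hk']
    have : e1 1 = 1 := by simp [he1]
    rw [this]
    positivity
  · intro p hp
    simp only [smul_apply, smul_eq_mul]
    constructor
    · apply mul_le_mul_of_nonneg_left _ (inv_nonneg.mpr hfe0.le)
      rw [hLu]
      exact hfl p hp
    · have h1 : (ell * f e0)⁻¹ * f L + 1 = (ell * f e0)⁻¹ * (f L + ell * f e0) := by
        field_simp
      rw [h1]
      apply mul_le_mul_of_nonneg_left _ (inv_nonneg.mpr hfe0.le)
      have := hfu p hp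
      linarith
  · intro p hp
    simp only [smul_apply, smul_eq_mul, hk']
    constructor
    · exact mul_le_mul_of_nonneg_left (hBm p hp) (inv_nonneg.mpr hH.le)
    · have h1 : (T 1 - B 1)⁻¹ * B 1 + 1 = (T 1 - B 1)⁻¹ * T 1 := by
        field_simp
        ring
      rw [h1]
      exact mul_le_mul_of_nonneg_left (hTm p hp) (inv_nonneg.mpr hH.le)
  · simp only [smul_apply, smul_eq_mul]
    have h1 : (ell * f e0)⁻¹ * f L + 1 = (ell * f e0)⁻¹ * (f L + ell * f e0) := by
      field_simp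
    rw [h1, hRu, hLu]
    ring
  · simp only [smul_apply, smul_eq_mul, hk']
    rw [hLR]
  · simp only [smul_apply, smul_eq_mul, hk']
    field_simp
    ring

/-- homothetic copies of ratios `r i` with `sum r i ^ 2 ≤ 1/3` pack into `F` by translations -/
theorem pack_fig {F : Set Pl} (hc : IsCompact F) (hF : Convex ℝ F) (hi : (interior F).Nonempty) (n : ℕ)
    (r : Fin n → ℝ) (hr : ∀ i, 0 < r i) (hA : ∑ i, r i ^ 2 ≤ 1 / 3) :
    ∃ b : Fin n → Pl, (∀ i, (fun x => r i • x + b i) '' F ⊆ F) ∧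
      ∀ i j, i ≠ j → Disjoint (interior ((fun x => r i • x + b i) '' F)) (interior ((fun x => r j • x + b j) '' F)) := by
  obtain ⟨f, k, f0, k0, v, w, L, R, T, B, hfv, hkw, hL, hR, hT, hB, hf, hk, hfL, hfR, hkLR, hkT, hkB⟩ :=
    frame hc hF hi
  let K : Set (ℝ × ℝ) := (fun p => (f p - f0, k p - k0)) '' F
  have hK : Convex ℝ K := by
    rintro _ ⟨p, hp, rfl⟩ _ ⟨q, hq, rfl⟩ a b ha hb hab
    refine ⟨a • p + b • q, hF hp hq ha hb hab, ?_⟩
    ext
    · simp only [map_add, map_smul, smul_eq_mul, Prod.fst_add, Prod.smul_fst]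
      have : b = 1 - a := by linarith
      rw [this]
      ring
    · simp only [map_add, map_smul, smul_eq_mul, Prod.snd_add, Prod.smul_snd]
      have : b = 1 - a := by linarith
      rw [this]
      ring
  have hKL : ((0 : ℝ), k L - k0) ∈ K := ⟨L, hL, by simp [hfL]⟩
  have hKR : ((1 : ℝ), k L - k0) ∈ K := ⟨R, hR, by simp [hfR, hkLR]⟩
  have hKT : (f T - f0, (1 : ℝ)) ∈ K := ⟨T, hT, by simp [hkT]⟩
  have hKB : (f B - f0, (0 : ℝ)) ∈ K := ⟨B, hB, by simp [hkB]⟩
  -- sorting
  let σ := Tuple.sort (fun i => - r i)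
  have hσ : ∀ i j, i ≤ j → r (σ j) ≤ r (σ i) := by
    intro i j hij
    have := Tuple.monotone_sort (fun i => - r i) hij
    simp only [Function.comp] at this
    linarith
  let l : List ℝ := List.ofFn (fun i => r (σ i))
  have hl1 : l.Pairwise (· ≥ ·) := by
    rw [List.pairwise_ofFn]
    intro i j hij
    exact hσ i j hij.le
  have hl2 : ∀ m ∈ l, 0 < m := by
    intro m hm
    obtain ⟨i, rfl⟩ := (List.mem_ofFn ..).mp hm
    exact hr _
  have hl3 : (l.map (fun m => m ^ 2)).sum ≤ 1 / 3 := by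
    have : (l.map (fun m => m ^ 2)).sum = ∑ i, r (σ i) ^ 2 := by
      simp only [l, List.map_ofFn, List.sum_ofFn]
      rfl
    rw [this, Equiv.sum_comp σ (fun i => r i ^ 2)]
    exact hA
  obtain ⟨Q, hQ1, hQ2, hQ3⟩ := pack_list hK (by linarith [(hk L hL).1]) (by linarith [(hk L hL).2]) hKL hKR hKT hKB l
    hl1 hl2 hl3
  have hlen : Q.length = n := by
    have := congrArg List.length hQ1
    simpa [l] using this
  let W : Fin n → ℝ × ℝ × ℝ := fun i => Q[(σ.symm i).1]'(by rw [hlen]; exact (σ.symm i).2)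
  have hW1 : ∀ i, (W i).1 = r i := by
    intro i
    have h1 : (Q.map Prod.fst)[(σ.symm i).1]'(by rw [List.length_map, hlen]; exact (σ.symm i).2) = r i := by
      simp only [hQ1]
      simp [l]
    simpa [W] using h1
  have hWV : ∀ i, Val K (r i) (W i).2.1 (W i).2.2 := by
    intro i
    have := hQ2 (W i) (List.getElem_mem _)
    rwa [hW1] at this
  have hWD : ∀ i j, i ≠ j → Disj (W i) (W j) := by
    have hlt : ∀ i j : Fin n, σ.symm i < σ.symm j → Disj (W i) (W j) := by
      intro i j hij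
      exact List.pairwise_iff_getElem.mp hQ3 _ _ _ _ hij
    intro i j hij
    rcases lt_or_gt_of_ne (fun h => hij (σ.symm.injective h) : σ.symm i ≠ σ.symm j) with h | h
    · exact hlt i j h
    · rcases hlt j i h with h | h | h | h
      · exact Or.inr (Or.inl h)
      · exact Or.inl h
      · exact Or.inr (Or.inr (Or.inr h))
      · exact Or.inr (Or.inr (Or.inl h))
  choose q hqK hqX hqY using hWV
  choose g hgF hgq using hqK
  have hgx : ∀ i, (W i).2.1 = (1 - r i) * (f (g i) - f0) := by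
    intro i
    rw [hqX i, ← hgq i]
  have hgy : ∀ i, (W i).2.2 = (1 - r i) * (k (g i) - k0) := by
    intro i
    rw [hqY i, ← hgq i]
  have hr1 : ∀ i, r i ≤ 1 := by
    intro i
    have h1 : r i ^ 2 ≤ ∑ i, r i ^ 2 := Finset.single_le_sum (fun j _ => sq_nonneg (r j)) (Finset.mem_univ i)
    have h2 := hr i
    nlinarith
  have hlow : ∀ i, ∀ p ∈ (fun x => r i • x + (1 - r i) • g i) '' F,
      (W i).2.1 + f0 ≤ f p ∧ f p ≤ (W i).2.1 + r i + f0 ∧ (W i).2.2 + k0 ≤ k p ∧ k p ≤ (W i).2.2 + r i + k0 := by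
    rintro i _ ⟨x, hx, rfl⟩
    simp only [map_add, map_smul, smul_eq_mul]
    rw [hgx, hgy]
    obtain ⟨h1, h2⟩ := hf x hx
    obtain ⟨h3, h4⟩ := hk x hx
    have h0 := (hr i).le
    refine ⟨?_, ?_, ?_, ?_⟩
    · nlinarith [mul_le_mul_of_nonneg_left h1 h0]
    · nlinarith [mul_le_mul_of_nonneg_left h2 h0]
    · nlinarith [mul_le_mul_of_nonneg_left h3 h0]
    · nlinarith [mul_le_mul_of_nonneg_left h4 h0]
  refine ⟨fun i => (1 - r i) • g i, ?_, ?_⟩
  · rintro i _ ⟨x, hx, rfl⟩
    exact hF hx (hgF i) (hr i).le (by linarith [hr1 i]) (by ring)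
  · intro i j hij
    have hd := hWD i j hij
    unfold Disj at hd
    rw [hW1, hW1] at hd
    rcases hd with hd | hd | hd | hd
    · exact disj_int f hfv (c := (W i).2.1 + r i + f0) (fun p hp => (hlow i p hp).2.1)
        (fun p hp => by linarith [(hlow j p hp).1])
    · exact (disj_int f hfv (c := (W j).2.1 + r j + f0) (fun p hp => (hlow j p hp).2.1)
        (fun p hp => by linarith [(hlow i p hp).1])).symm
    · exact disj_int k hkw (c := (W i).2.2 + r i + k0) (fun p hp => (hlow i p hp).2.2.2)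
        (fun p hp => by linarith [(hlow j p hp).2.2.1])
    · exact (disj_int k hkw (c := (W j).2.2 + r j + k0) (fun p hp => (hlow j p hp).2.2.2)
        (fun p hp => by linarith [(hlow i p hp).2.2.1])).symm

end Pool.Agent.CLN
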