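import Mathlib

/-!
# MP_246b47_co: the potential inequality

Two triangular regions of weights `a` and `b`, with normalised remaining heights `x` and `z`; the row opened last has
leading size `H` and normalised width `g`, which is `x` or `z`.
-/

set_option autoImplicit false

namespace Pool.Agent.CLN

/-- the potential -/
noncomputable def Phi (a b x z g H : ℝ) : ℝ := a * x ^ 2 / 2 + b * z ^ 2 / 2 - H / 2 * (max x z - g)

/-- the invariant -/
def Inv (a b x z g H : ℝ) : Prop := (g = x ∧ b * (z - x) ≤ H) ∨ (g = z ∧ a * (x - z) ≤ H)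

theorem phi_swap (a b x z g H : ℝ) : Phi a b x z g H = Phi b a z x g H := by
  unfold Phi
  rw [max_comm]
  ring

theorem inv_swap {a b x z g H : ℝ} (h : Inv a b x z g H) : Inv b a z x g H := by
  rcases h with h | h
  · exact Or.inr h
  · exact Or.inl h

/-- no region is left -/
theorem phi_fail_aux {a b x z H h : ℝ} (hx : 0 ≤ x) (hz : 0 ≤ z) (hh : 0 < h)
    (hH : h ≤ H) (h1 : a * x < h) (h2 : b * z < h) : Phi a b x z x H ≤ h * x := by
  unfold Phi
  rcases le_total z x with hzx | hzx
  · rw [max_eq_left hzx]
    nlinarith [mul_nonneg hz (sub_nonneg.mpr h2.le), mul_nonneg hx (sub_nonneg.mpr h1.le)]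
  · rw [max_eq_right hzx]
    nlinarith [mul_nonneg hz (sub_nonneg.mpr h2.le), mul_nonneg hx (sub_nonneg.mpr h1.le),
      mul_nonneg (sub_nonneg.mpr hH) (sub_nonneg.mpr hzx)]

theorem phi_fail {a b x z g H h : ℝ} (hx : 0 ≤ x) (hz : 0 ≤ z) (hh : 0 < h)
    (hH : h ≤ H) (hi : Inv a b x z g H) (h1 : a * x < h) (h2 : b * z < h) : Phi a b x z g H ≤ h * g := by
  rcases hi with ⟨rfl, _⟩ | ⟨rfl, _⟩
  · exact phi_fail_aux hx hz hh hH h1 h2
  · rw [phi_swap]
    exact phi_fail_aux hz hx hh hH h2 h1

/-- a new row in the region used last -/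
theorem phi_same {a b x z x' H h : ℝ} (hh : 0 < h) (hH : h ≤ H) (ha : 0 < a) (hx' : a * x' = a * x - h) :
    Phi a b x z x H ≤ h * x + Phi a b x' z x' h := by
  have hd : x - x' = h / a := by
    field_simp
    linarith
  have hd0 : 0 < h / a := div_pos hh ha
  have e : a * (x ^ 2 - x' ^ 2) = h * (x + x') := by
    have : a * (x ^ 2 - x' ^ 2) = (a * x - a * x') * (x + x') := by ring
    rw [this, hx']
    ring
  unfold Phi
  have h1 : max x' z - x' ≤ (max x z - x) + (x - x') := by
    have : max x' z ≤ max x z := max_le_max (by linarith) le_rfl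
    linarith
  have h2 : 0 ≤ max x z - x := by
    have := le_max_left x z
    linarith
  nlinarith [mul_nonneg (sub_nonneg.mpr hH) h2, mul_le_mul_of_nonneg_left h1 hh.le]

/-- a new row in the other region -/
theorem phi_other {a b x z z' H h : ℝ} (hh : 0 < h) (hH : h ≤ H) (hb : 0 < b) (hz' : b * z' = b * z - h)
    (hi : b * (z - x) ≤ H) : Phi a b x z x H ≤ h * x + Phi a b x z' z' h := by
  have e : b * (z ^ 2 - z' ^ 2) = h * (z + z') := by
    have : b * (z ^ 2 - z' ^ 2) = (b * z - b * z') * (z + z') := by ring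
    rw [this, hz']
    ring
  have hlt : z' < z := by
    by_contra hc
    push Not at hc
    nlinarith
  unfold Phi
  rcases le_total z' x with hc | hc
  · rw [max_eq_left hc]
    rcases le_total z x with hzx | hzx
    · rw [max_eq_left hzx]
      nlinarith
    · rw [max_eq_right hzx]
      nlinarith [mul_nonneg (sub_nonneg.mpr hH) (sub_nonneg.mpr hzx)]
  · rw [max_eq_right hc, max_eq_right (by linarith : x ≤ z)]
    -- to show: (z - x) (H/2 - h) + h (z - z') / 2 >= 0
    have hd : 0 < z - x := by linarith
    have key : 0 ≤ (z - x) * (H / 2 - h) + h * (z - z') / 2 := by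
      rcases le_total h (H / 2) with h2 | h2
      · have := mul_nonneg hd.le (sub_nonneg.mpr h2)
        nlinarith
      · -- multiply by b
        have hb' : 0 ≤ b * ((z - x) * (H / 2 - h) + h * (z - z') / 2) := by
          have e2 : b * ((z - x) * (H / 2 - h) + h * (z - z') / 2)
              = (b * (z - x)) * (H / 2 - h) + h * h / 2 := by
            have : b * (z - z') = h := by linarith
            calc b * ((z - x) * (H / 2 - h) + h * (z - z') / 2)
                = (b * (z - x)) * (H / 2 - h) + h * (b * (z - z')) / 2 := by ring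
              _ = _ := by rw [this]
          rw [e2]
          nlinarith [mul_nonneg (sub_nonneg.mpr hi) (sub_nonneg.mpr h2), sq_nonneg (H - h)]
        exact nonneg_of_mul_nonneg_right hb' hb
    nlinarith

/-- the step: either nothing fits, and then the potential is at most `h g`, or a row can be opened on one side -/
theorem phi_step {a b x z g H h : ℝ} (ha : 0 ≤ a) (hb : 0 ≤ b) (hx : 0 ≤ x) (hz : 0 ≤ z) (hh : 0 < h) (hH : h ≤ H)
    (hi : Inv a b x z g H) :
    (Phi a b x z g H ≤ h * g) ∨
    (∃ x', 0 < a ∧ a * x' = a * x - h ∧ 0 ≤ x' ∧ Inv a b x' z x' h ∧ Phi a b x z g H ≤ h * g + Phi a b x' z x' h) ∨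
    (∃ z', 0 < b ∧ b * z' = b * z - h ∧ 0 ≤ z' ∧ Inv a b x z' z' h ∧ Phi a b x z g H ≤ h * g + Phi a b x z' z' h) := by
  have opt1 : ∀ (hf : h ≤ a * x), (b * z < h ∨ b * z - h ≤ b * (x - h / a) ) → _ := fun hf hc => by
    have ha0 : 0 < a := by
      rcases ha.lt_or_eq with h0 | h0
      · exact h0
      · rw [← h0] at hf
        linarith
    have hx' : a * (x - h / a) = a * x - h := by
      field_simp
    have hx0 : 0 ≤ x - h / a := by
      have : 0 ≤ a * (x - h / a) := by rw [hx']; linarith
      exact nonneg_of_mul_nonneg_right this ha0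
    refine (⟨x - h / a, ha0, hx', hx0, ?_, ?_⟩ : ∃ x', 0 < a ∧ a * x' = a * x - h ∧ 0 ≤ x' ∧
      Inv a b x' z x' h ∧ Phi a b x z g H ≤ h * g + Phi a b x' z x' h)
    · left
      refine ⟨rfl, ?_⟩
      rcases hc with hc | hc
      · have := mul_nonneg hb hx0
        nlinarith
      · nlinarith
    · rcases hi with ⟨rfl, _⟩ | ⟨rfl, hi2⟩
      · exact phi_same hh hH ha0 hx'
      · have := @phi_other b a g x (x - h / a) H h hh hH ha0 hx' hi2
        rw [phi_swap a b x g g H, phi_swap a b (x - h / a) g (x - h / a) h]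
        exact this
  have opt2 : ∀ (hf : h ≤ b * z), (a * x < h ∨ a * x - h ≤ a * (z - h / b) ) → _ := fun hf hc => by
    have hb0 : 0 < b := by
      rcases hb.lt_or_eq with h0 | h0
      · exact h0
      · rw [← h0] at hf
        linarith
    have hz' : b * (z - h / b) = b * z - h := by
      field_simp
    have hz0 : 0 ≤ z - h / b := by
      have : 0 ≤ b * (z - h / b) := by rw [hz']; linarith
      exact nonneg_of_mul_nonneg_right this hb0
    refine (⟨z - h / b, hb0, hz', hz0, ?_, ?_⟩ : ∃ z', 0 < b ∧ b * z' = b * z - h ∧ 0 ≤ z' ∧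
      Inv a b x z' z' h ∧ Phi a b x z g H ≤ h * g + Phi a b x z' z' h)
    · right
      refine ⟨rfl, ?_⟩
      rcases hc with hc | hc
      · have := mul_nonneg ha hz0
        nlinarith
      · nlinarith
    · rcases hi with ⟨rfl, hi2⟩ | ⟨rfl, _⟩
      · exact phi_other hh hH hb0 hz' hi2
      · have := @phi_same b a g x (g - h / b) H h hh hH hb0 hz'
        rw [phi_swap a b x g g H, phi_swap a b x (g - h / b) (g - h / b) h]
        exact this
  rcases lt_or_ge (a * x) h with h1 | h1
  · rcases lt_or_ge (b * z) h with h2 | h2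
    · exact Or.inl (phi_fail hx hz hh hH hi h1 h2)
    · exact Or.inr (Or.inr (opt2 h2 (Or.inl h1)))
  · rcases lt_or_ge (b * z) h with h2 | h2
    · exact Or.inr (Or.inl (opt1 h1 (Or.inl h2)))
    · have ha0 : 0 < a := by
        rcases ha.lt_or_eq with h0 | h0
        · exact h0
        · rw [← h0] at h1
          linarith
      have hb0 : 0 < b := by
        rcases hb.lt_or_eq with h0 | h0
        · exact h0
        · rw [← h0] at h2
          linarith
      rcases le_total (z - h / b) (x - h / a) with hc | hc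
      · refine Or.inr (Or.inl (opt1 h1 (Or.inr ?_)))
        have := mul_le_mul_of_nonneg_left hc hb
        have e : b * (z - h / b) = b * z - h := by field_simp
        linarith
      · refine Or.inr (Or.inr (opt2 h2 (Or.inr ?_)))
        have := mul_le_mul_of_nonneg_left hc ha
        have e : a * (x - h / a) = a * x - h := by field_simp
        linarith

end Pool.Agent.CLN
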