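import Pool.Agent.CLN.Pot

/-!
# MP_246b47_co: packing squares into a figure which contains a quadrilateral

`K` is a convex subset of the plane which contains `(0, y0)`, `(1, y0)`, `(t, 1)` and `(s, 0)`.  A square of side `m`
with lower left corner `(X, Y)` is admissible if `(X, Y) = (1 - m) k` with `k` in `K`.
-/

set_option autoImplicit false

namespace Pool.Agent.CLN

/-- the admissible positions of the square of side `m` -/
def Val (K : Set (ℝ × ℝ)) (m X Y : ℝ) : Prop := ∃ k ∈ K, X = (1 - m) * k.1 ∧ Y = (1 - m) * k.2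

/-- squares `(side, X, Y)` with disjoint interiors -/
def Disj (p q : ℝ × ℝ × ℝ) : Prop :=
  p.2.1 + p.1 ≤ q.2.1 ∨ q.2.1 + q.1 ≤ p.2.1 ∨ p.2.2 + p.1 ≤ q.2.2 ∨ q.2.2 + q.1 ≤ p.2.2

/-- admissible positions in a row: the row starts from the chord `[P, Q]` of `K`, scaled by `1 - h` -/
theorem val_row {K : Set (ℝ × ℝ)} (hK : Convex ℝ K) {y0 : ℝ} (hL : ((0 : ℝ), y0) ∈ K) (hR : ((1 : ℝ), y0) ∈ K)
    {P Q : ℝ × ℝ} (hP : P ∈ K) (hQ : Q ∈ K) {h m X g xl y : ℝ} (hh1 : h < 1) (_hm : 0 < m) (hmh : m ≤ h)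
    (hxl : (1 - h) * P.1 = xl) (hy : (1 - h) * P.2 = y) (hxr : (1 - h) * Q.1 = xl + g) (hy' : (1 - h) * Q.2 = y)
    (hg : 0 ≤ g) (hX1 : xl ≤ X) (hX2 : X + m ≤ xl + g + h) : Val K m X (y + (h - m) * y0) := by
  -- X = xl + u * g + v * (h - m)
  obtain ⟨u, v, hu0, hu1, hv0, hv1, hXe⟩ : ∃ u v : ℝ, 0 ≤ u ∧ u ≤ 1 ∧ 0 ≤ v ∧ v ≤ 1 ∧ X = xl + u * g + v * (h - m) := by
    rcases eq_or_lt_of_le (show 0 ≤ g + (h - m) by linarith) with h0 | h0
    · refine ⟨0, 0, le_rfl, zero_le_one, le_rfl, zero_le_one, ?_⟩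
      linarith
    · refine ⟨(X - xl) / (g + (h - m)), (X - xl) / (g + (h - m)), div_nonneg (by linarith) h0.le,
        (div_le_one h0).mpr (by linarith), div_nonneg (by linarith) h0.le, (div_le_one h0).mpr (by linarith), ?_⟩
      have : (X - xl) / (g + (h - m)) * (g + (h - m)) = X - xl := div_mul_cancel₀ _ h0.ne'
      linarith
  have h1m : 0 < 1 - m := by linarith
  have hA : (1 - u) • P + u • Q ∈ K := hK hP hQ (by linarith) hu0 (by ring)
  have hB : (1 - v) • ((0 : ℝ), y0) + v • ((1 : ℝ), y0) ∈ K := hK hL hR (by linarith) hv0 (by ring)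
  have hC := hK hA hB (a := (1 - h) / (1 - m)) (b := (h - m) / (1 - m))
    (div_nonneg (by linarith) h1m.le) (div_nonneg (by linarith) h1m.le)
    (by rw [← add_div]; rw [div_eq_one_iff_eq h1m.ne']; ring)
  refine ⟨_, hC, ?_, ?_⟩
  · simp only [Prod.fst_add, Prod.smul_fst, smul_eq_mul]
    have e : (1 - m) * ((1 - h) / (1 - m) * ((1 - u) * P.1 + u * Q.1) + (h - m) / (1 - m) * ((1 - v) * 0 + v * 1))
        = (1 - u) * ((1 - h) * P.1) + u * ((1 - h) * Q.1) + (h - m) * v := by
      field_simp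
      ring
    rw [e, hxl, hxr, hXe]
    ring
  · simp only [Prod.snd_add, Prod.smul_snd, smul_eq_mul]
    have e : (1 - m) * ((1 - h) / (1 - m) * ((1 - u) * P.2 + u * Q.2) + (h - m) / (1 - m) * ((1 - v) * y0 + v * y0))
        = (1 - u) * ((1 - h) * P.2) + u * ((1 - h) * Q.2) + (h - m) * y0 := by
      field_simp
      ring
    rw [e, hy, hy']
    ring

/-- the main induction -/
theorem pack_aux {K : Set (ℝ × ℝ)} (hK : Convex ℝ K) {y0 s t : ℝ} (hy0 : 0 ≤ y0) (hy1 : y0 ≤ 1)
    (hL : ((0 : ℝ), y0) ∈ K) (hR : ((1 : ℝ), y0) ∈ K) (hT : (t, (1 : ℝ)) ∈ K) (hB : (s, (0 : ℝ)) ∈ K) :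
    ∀ (l : List ℝ) (x z g H P q c p yr yu yl : ℝ), l.Pairwise (· ≥ ·) → (∀ m ∈ l, 0 < m ∧ m ≤ c) → 0 < c → c ≤ H →
      H < 1 → 0 ≤ x → 0 ≤ z → 0 ≤ g → Inv (1 - y0) y0 x z g H → q ≤ g → c * (g - q) ≤ P →
      (l.map (fun m => m ^ 2)).sum + P ≤ Phi (1 - y0) y0 x z g H →
      yu = 1 - (1 - y0) * x → yl = y0 * z → yl ≤ y0 → y0 ≤ yu → yl ≤ yr → yr + H ≤ yu →
      (∀ m, 0 < m → m ≤ H → ∀ X, p ≤ X → X + m ≤ p + q → Val K m X (yr + (H - m) * y0)) →
      ∃ Q : List (ℝ × ℝ × ℝ), Q.map Prod.fst = l ∧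
        (∀ w ∈ Q, Val K w.1 w.2.1 w.2.2 ∧
          ((p ≤ w.2.1 ∧ yr ≤ w.2.2 ∧ w.2.2 + w.1 ≤ yr + H) ∨ yu ≤ w.2.2 ∨ w.2.2 + w.1 ≤ yl)) ∧
        Q.Pairwise Disj := by
  intro l
  induction l with
  | nil =>
    intro x z g H P q c p yr yu yl _ _ _ _ _ _ _ _ _ _ _ _ _ _ _ _ _ _ _
    exact ⟨[], rfl, by simp, List.Pairwise.nil⟩
  | cons h l ih =>
    intro x z g H P q c p yr yu yl hs hl hc hcH hH1 hx hz hg hi hq hP hA hyu hyl hyl0 hyu0 hr1 hr2 hrow
    have hh := hl h (List.mem_cons_self ..)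
    have hs' := List.pairwise_cons.mp hs
    have hl' : ∀ m ∈ l, 0 < m ∧ m ≤ h := fun m hm => ⟨(hl m (List.mem_cons_of_mem _ hm)).1, hs'.1 m hm⟩
    have hhH : h ≤ H := hh.2.trans hcH
    simp only [List.map_cons, List.sum_cons] at hA
    have hl0 : 0 ≤ (l.map (fun m => m ^ 2)).sum := by
      apply List.sum_nonneg
      intro v hv
      obtain ⟨m, _, rfl⟩ := List.mem_map.mp hv
      positivity
    rcases le_or_gt h q with hfit | hfit
    · -- the next square fits into the row
      have hcg : h * (g - (q - h)) ≤ P + h ^ 2 := by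
        have : h * (g - q) ≤ c * (g - q) := mul_le_mul_of_nonneg_right hh.2 (by linarith)
        nlinarith
      obtain ⟨Q, hQ1, hQ2, hQ3⟩ := ih x z g H (P + h ^ 2) (q - h) h (p + h) yr yu yl hs'.2 hl' hh.1 hhH hH1 hx hz hg hi
        (by linarith [hh.1]) hcg (by linarith) hyu hyl hyl0 hyu0 hr1 hr2
        (fun m hm0 hmH X hX1 hX2 => hrow m hm0 hmH X (by linarith [hh.1]) (by linarith))
      refine ⟨(h, p, yr + (H - h) * y0) :: Q, by simp [hQ1], ?_, ?_⟩
      · have hy2 : 0 ≤ (H - h) * y0 := mul_nonneg (by linarith) hy0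
        have hy3 : (H - h) * y0 ≤ H - h := by
          have := mul_le_mul_of_nonneg_left hy1 (by linarith : 0 ≤ H - h)
          linarith
        intro w hw
        rcases List.mem_cons.mp hw with rfl | hw
        · exact ⟨hrow h hh.1 hhH p le_rfl (by linarith), Or.inl ⟨le_rfl, by simp; linarith, by simp; linarith⟩⟩
        · obtain ⟨h1, h2⟩ := hQ2 w hw
          refine ⟨h1, ?_⟩
          rcases h2 with ⟨h2, h3, h4⟩ | h2 | h2
          · exact Or.inl ⟨by linarith [hh.1], h3, h4⟩
          · exact Or.inr (Or.inl h2)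
          · exact Or.inr (Or.inr h2)
      · have hy2 : 0 ≤ (H - h) * y0 := mul_nonneg (by linarith) hy0
        have hy3 : (H - h) * y0 ≤ H - h := by
          have := mul_le_mul_of_nonneg_left hy1 (by linarith : 0 ≤ H - h)
          linarith
        refine List.pairwise_cons.mpr ⟨fun w hw => ?_, hQ3⟩
        obtain ⟨_, h2⟩ := hQ2 w hw
        unfold Disj
        simp only
        rcases h2 with ⟨h2, h3, h4⟩ | h2 | h2
        · exact Or.inl h2
        · exact Or.inr (Or.inr (Or.inl (by linarith)))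
        · exact Or.inr (Or.inr (Or.inr (by linarith)))
    · -- a new row
      have hkey : (l.map (fun m => m ^ 2)).sum < Phi (1 - y0) y0 x z g H - h * g := by
        have h1 : h * (g - q) ≤ P := (mul_le_mul_of_nonneg_right hh.2 (by linarith)).trans hP
        nlinarith [hh.1]
      have ha0 : 0 ≤ 1 - y0 := by linarith
      rcases phi_step ha0 hy0 hx hz hh.1 hhH hi with hf | ⟨x', ha, hx', hx'0, hi', hPhi⟩ | ⟨z', hb, hz', hz'0, hi', hPhi⟩
      · exfalso
        linarith
      · -- upper region; the row is `[yu, yu + h]`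
        have hh1 : h < 1 := by linarith
        have hD : 0 < 1 - h := by linarith
        have e1 : 1 - h - yu = (1 - y0) * x' := by rw [hx', hyu]; ring
        have e2 : yu + h = 1 - (1 - y0) * x' := by linarith
        have hax' : 0 ≤ (1 - y0) * x' := mul_nonneg ha.le hx'0
        have hx'D : x' ≤ 1 - h := by
          -- (1 - y0) x' = 1 - h - yu <= 1 - h - y0 <= (1 - y0)(1 - h)
          have : (1 - y0) * x' ≤ (1 - y0) * (1 - h) := by
            rw [← e1]
            nlinarith [mul_nonneg hy0 hh.1.le]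
          exact le_of_mul_le_mul_left this ha
        -- tau = 1 - x' / (1 - h)
        set r := x' / (1 - h) with hr
        have hr0 : 0 ≤ r := div_nonneg hx'0 hD.le
        have hr1' : r ≤ 1 := (div_le_one hD).mpr hx'D
        have hrD : (1 - h) * r = x' := by rw [hr]; field_simp
        have hPm : r • ((0 : ℝ), y0) + (1 - r) • (t, (1 : ℝ)) ∈ K := hK hL hT hr0 (by linarith) (by ring)
        have hQm : r • ((1 : ℝ), y0) + (1 - r) • (t, (1 : ℝ)) ∈ K := hK hR hT hr0 (by linarith) (by ring)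
        set xl := (1 - h) * ((1 - r) * t) with hxl
        have hsnd : (1 - h) * (r * y0 + (1 - r) * 1) = yu := by
          have : (1 - h) * (r * y0 + (1 - r) * 1) = ((1 - h) * r) * y0 + (1 - h) - (1 - h) * r := by ring
          rw [this, hrD]
          linarith
        have hval : ∀ m, 0 < m → m ≤ h → ∀ X, xl ≤ X → X + m ≤ xl + x' + h → Val K m X (yu + (h - m) * y0) := by
          intro m hm0 hmh X hX1 hX2
          refine val_row hK hL hR hPm hQm hh1 hm0 hmh (g := x') (xl := xl) ?_ ?_ ?_ ?_ hx'0 hX1 hX2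
          · simp only [Prod.fst_add, Prod.smul_fst, smul_eq_mul]
            rw [hxl]
            ring
          · simp only [Prod.snd_add, Prod.smul_snd, smul_eq_mul]
            exact hsnd
          · simp only [Prod.fst_add, Prod.smul_fst, smul_eq_mul]
            have : (1 - h) * (r * 1 + (1 - r) * t) = (1 - h) * r + (1 - h) * ((1 - r) * t) := by ring
            rw [this, hrD, hxl]
            ring
          · simp only [Prod.snd_add, Prod.smul_snd, smul_eq_mul]
            exact hsnd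
        obtain ⟨Q, hQ1, hQ2, hQ3⟩ := ih x' z x' h 0 x' h (xl + h) yu (yu + h) yl hs'.2 hl' hh.1 le_rfl hh1 hx'0 hz hx'0
          hi' le_rfl (by simp) (by linarith) e2 hyl hyl0 (by linarith) (by linarith) le_rfl
          (fun m hm0 hmH X hX1 hX2 => hval m hm0 hmH X (by linarith [hh.1]) (by linarith))
        have hlead : Val K h xl yu := by
          have := hval h hh.1 le_rfl xl le_rfl (by linarith)
          simpa using this
        refine ⟨(h, xl, yu) :: Q, by simp [hQ1], ?_, ?_⟩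
        · intro w hw
          rcases List.mem_cons.mp hw with rfl | hw
          · exact ⟨hlead, Or.inr (Or.inl le_rfl)⟩
          · obtain ⟨h1, h2⟩ := hQ2 w hw
            refine ⟨h1, ?_⟩
            rcases h2 with ⟨_, h3, _⟩ | h2 | h2
            · exact Or.inr (Or.inl h3)
            · exact Or.inr (Or.inl (by linarith [hh.1]))
            · exact Or.inr (Or.inr h2)
        · refine List.pairwise_cons.mpr ⟨fun w hw => ?_, hQ3⟩
          obtain ⟨_, h2⟩ := hQ2 w hw
          unfold Disj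
          simp only
          rcases h2 with ⟨h2, h3, h4⟩ | h2 | h2
          · exact Or.inl h2
          · exact Or.inr (Or.inr (Or.inl h2))
          · exact Or.inr (Or.inr (Or.inr (by linarith)))
      · -- lower region; the row is `[yl - h, yl]`
        have hh1 : h < 1 := by linarith
        have hD : 0 < 1 - h := by linarith
        have e1 : yl - h = y0 * z' := by rw [hz', hyl]
        have hbz' : 0 ≤ y0 * z' := mul_nonneg hb.le hz'0
        have hz'D : z' ≤ 1 - h := by
          have : y0 * z' ≤ y0 * (1 - h) := by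
            rw [← e1]
            nlinarith [mul_nonneg (by linarith : 0 ≤ 1 - y0) hh.1.le]
          exact le_of_mul_le_mul_left this hb
        set r := z' / (1 - h) with hr
        have hr0 : 0 ≤ r := div_nonneg hz'0 hD.le
        have hr1' : r ≤ 1 := (div_le_one hD).mpr hz'D
        have hrD : (1 - h) * r = z' := by rw [hr]; field_simp
        have hPm : r • ((0 : ℝ), y0) + (1 - r) • (s, (0 : ℝ)) ∈ K := hK hL hB hr0 (by linarith) (by ring)
        have hQm : r • ((1 : ℝ), y0) + (1 - r) • (s, (0 : ℝ)) ∈ K := hK hR hB hr0 (by linarith) (by ring)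
        set xl := (1 - h) * ((1 - r) * s) with hxl
        have hsnd : (1 - h) * (r * y0 + (1 - r) * 0) = yl - h := by
          have : (1 - h) * (r * y0 + (1 - r) * 0) = ((1 - h) * r) * y0 := by ring
          rw [this, hrD]
          linarith
        have hval : ∀ m, 0 < m → m ≤ h → ∀ X, xl ≤ X → X + m ≤ xl + z' + h → Val K m X (yl - h + (h - m) * y0) := by
          intro m hm0 hmh X hX1 hX2
          refine val_row hK hL hR hPm hQm hh1 hm0 hmh (g := z') (xl := xl) ?_ ?_ ?_ ?_ hz'0 hX1 hX2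
          · simp only [Prod.fst_add, Prod.smul_fst, smul_eq_mul]
            rw [hxl]
            ring
          · simp only [Prod.snd_add, Prod.smul_snd, smul_eq_mul]
            exact hsnd
          · simp only [Prod.fst_add, Prod.smul_fst, smul_eq_mul]
            have : (1 - h) * (r * 1 + (1 - r) * s) = (1 - h) * r + (1 - h) * ((1 - r) * s) := by ring
            rw [this, hrD, hxl]
            ring
          · simp only [Prod.snd_add, Prod.smul_snd, smul_eq_mul]
            exact hsnd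
        obtain ⟨Q, hQ1, hQ2, hQ3⟩ := ih x z' z' h 0 z' h (xl + h) (yl - h) yu (yl - h) hs'.2 hl' hh.1 le_rfl hh1 hx hz'0
          hz'0 hi' le_rfl (by simp) (by linarith) hyu e1 (by linarith [hh.1]) hyu0 le_rfl (by linarith)
          (fun m hm0 hmH X hX1 hX2 => hval m hm0 hmH X (by linarith [hh.1]) (by linarith))
        have hlead : Val K h xl (yl - h) := by
          have := hval h hh.1 le_rfl xl le_rfl (by linarith)
          simpa using this
        refine ⟨(h, xl, yl - h) :: Q, by simp [hQ1], ?_, ?_⟩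
        · intro w hw
          rcases List.mem_cons.mp hw with rfl | hw
          · exact ⟨hlead, Or.inr (Or.inr (by simp))⟩
          · obtain ⟨h1, h2⟩ := hQ2 w hw
            refine ⟨h1, ?_⟩
            rcases h2 with ⟨_, _, h4⟩ | h2 | h2
            · exact Or.inr (Or.inr (by linarith))
            · exact Or.inr (Or.inl h2)
            · exact Or.inr (Or.inr (by linarith [hh.1]))
        · refine List.pairwise_cons.mpr ⟨fun w hw => ?_, hQ3⟩
          obtain ⟨_, h2⟩ := hQ2 w hw
          unfold Disj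
          simp only
          rcases h2 with ⟨h2, h3, h4⟩ | h2 | h2
          · exact Or.inl h2
          · exact Or.inr (Or.inr (Or.inl (by linarith)))
          · exact Or.inr (Or.inr (Or.inr (by linarith)))

/-- squares of total area at most `1/3` -/
theorem pack_list {K : Set (ℝ × ℝ)} (hK : Convex ℝ K) {y0 s t : ℝ} (hy0 : 0 ≤ y0) (hy1 : y0 ≤ 1)
    (hL : ((0 : ℝ), y0) ∈ K) (hR : ((1 : ℝ), y0) ∈ K) (hT : (t, (1 : ℝ)) ∈ K) (hB : (s, (0 : ℝ)) ∈ K)
    (l : List ℝ) (hs : l.Pairwise (· ≥ ·)) (hpos : ∀ m ∈ l, 0 < m) (hA : (l.map (fun m => m ^ 2)).sum ≤ 1 / 3) :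
    ∃ Q : List (ℝ × ℝ × ℝ), Q.map Prod.fst = l ∧ (∀ w ∈ Q, Val K w.1 w.2.1 w.2.2) ∧ Q.Pairwise Disj := by
  rcases l with _ | ⟨h, l⟩
  · exact ⟨[], rfl, by simp, List.Pairwise.nil⟩
  have hh := hpos h (List.mem_cons_self ..)
  have hs' := List.pairwise_cons.mp hs
  have hl' : ∀ m ∈ l, 0 < m ∧ m ≤ h := fun m hm => ⟨hpos m (List.mem_cons_of_mem _ hm), hs'.1 m hm⟩
  simp only [List.map_cons, List.sum_cons] at hA
  have hl0 : 0 ≤ (l.map (fun m => m ^ 2)).sum := by
    apply List.sum_nonneg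
    intro v hv
    obtain ⟨m, _, rfl⟩ := List.mem_map.mp hv
    positivity
  have hh1 : h < 1 := by nlinarith
  have hrow : ∀ m, 0 < m → m ≤ h → ∀ X, 0 ≤ X → X + m ≤ 0 + (1 - h) + h →
      Val K m X ((1 - h) * y0 + (h - m) * y0) := by
    intro m hm0 hmh X hX1 hX2
    refine val_row hK hL hR hL hR hh1 hm0 hmh (g := 1 - h) (xl := 0) ?_ ?_ ?_ ?_ (by linarith) hX1 hX2
    · simp
    · simp
    · simp
    · simp
  have hy2 : 0 ≤ (1 - h) * y0 := mul_nonneg (by linarith) hy0
  have hy3 : (1 - h) * y0 ≤ y0 := by nlinarith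
  have hy4 : (1 - y0) * (1 - h) ≤ 1 - y0 := by nlinarith
  obtain ⟨Q, hQ1, hQ2, hQ3⟩ := pack_aux hK hy0 hy1 hL hR hT hB l (1 - h) (1 - h) (1 - h) h 0 (1 - h) h (0 + h)
    ((1 - h) * y0) ((1 - h) * y0 + h) ((1 - h) * y0) hs'.2 hl' hh le_rfl hh1 (by linarith) (by linarith) (by linarith)
    (Or.inl ⟨rfl, by simpa using hh.le⟩) le_rfl (by simp)
    (by
      unfold Phi
      rw [max_self]
      nlinarith [sq_nonneg (3 * h - 1)])
    (by ring) (by ring) hy3 (by nlinarith) le_rfl le_rfl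
    (fun m hm0 hmh X hX1 hX2 => hrow m hm0 hmh X (by linarith) (by linarith))
  have hlead : Val K h 0 ((1 - h) * y0) := by
    have := hrow h hh le_rfl 0 le_rfl (by linarith)
    simpa using this
  refine ⟨(h, 0, (1 - h) * y0) :: Q, by simp [hQ1], ?_, ?_⟩
  · intro w hw
    rcases List.mem_cons.mp hw with rfl | hw
    · exact hlead
    · exact (hQ2 w hw).1
  · refine List.pairwise_cons.mpr ⟨fun w hw => ?_, hQ3⟩
    obtain ⟨_, h2⟩ := hQ2 w hw
    unfold Disj
    simp only
    rcases h2 with ⟨h2, h3, h4⟩ | h2 | h2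
    · exact Or.inl h2
    · exact Or.inr (Or.inr (Or.inl h2))
    · exact Or.inr (Or.inr (Or.inr (by linarith)))

end Pool.Agent.CLN
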